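import Pool.Agent.Q21.HG.Classical

set_option autoImplicit false

namespace Pool.Agent.Q21.HG

open MonoidAlgebra Polynomial TensorProduct

variable {K L : Type*} [Field K] [Field L] [Algebra K L] [FiniteDimensional K L] [IsGalois K L]
variable (A : Type*) [CommRing A] [IsDedekindDomain A] [Algebra A K] [IsFractionRing A K]
  [Algebra A L] [IsScalarTower A K L]

/-- a `K`-endomorphism of `L` preserving the integral closure satisfies a monic equation over `A` -/
theorem exists_monic_of_stable (φ : Module.End K L)
    (hφ : ∀ x ∈ integralClosure A L, φ x ∈ integralClosure A L) :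
    ∃ P : A[X], P.Monic ∧ aeval φ (P.map (algebraMap A K)) = 0 := by
  let B := integralClosure A L
  have hN : IsNoetherian A B := IsIntegralClosure.isNoetherian A K L B
  have hF : Module.Finite A B := inferInstance
  let φ' : Module.End A B :=
    { toFun := fun x => ⟨φ x, hφ x x.2⟩
      map_add' := fun x y => Subtype.ext (by simp)
      map_smul' := fun r x => Subtype.ext (by
        have h1 : (((r • x : B)) : L) = (algebraMap A K r) • (x : L) := by
          rw [algebraMap_smul]; rfl
        change φ ((r • x : B) : L) = ((r • (⟨φ x, hφ x x.2⟩ : B) : B) : L)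
        rw [h1, map_smul, algebraMap_smul]
        rfl) }
  obtain ⟨P, hP, hP0⟩ := LinearMap.exists_monic_and_aeval_eq_zero A φ'
  refine ⟨P, hP, ?_⟩
  have key : ∀ (Q : A[X]) (x : B), ((aeval φ' Q x : B) : L) =
      aeval φ (Q.map (algebraMap A K)) (x : L) := by
    intro Q
    induction Q using Polynomial.induction_on' with
    | add p q hp hq =>
      intro x
      rw [map_add, Polynomial.map_add, map_add, LinearMap.add_apply, LinearMap.add_apply,
        ← hp, ← hq]
      rfl
    | monomial n a =>
      have h1 : ∀ (n : ℕ) (x : B), (((φ' ^ n) x : B) : L) = (φ ^ n) (x : L) := by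
        intro n
        induction n with
        | zero => intro x; rfl
        | succ n ih =>
          intro x
          rw [pow_succ, pow_succ, Module.End.mul_apply, Module.End.mul_apply, ih]
          rfl
      intro x
      rw [Polynomial.aeval_monomial, Polynomial.map_monomial, Polynomial.aeval_monomial,
        Module.End.mul_apply, Module.End.mul_apply, ← h1]
      rw [Module.algebraMap_end_apply, Module.algebraMap_end_apply, algebraMap_smul]
      rfl
  have hz : ∀ x ∈ B, aeval φ (P.map (algebraMap A K)) x = 0 := by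
    intro x hx
    rw [← key P ⟨x, hx⟩, hP0]
    rfl
  ext x
  obtain ⟨y, hy0, hy⟩ := exists_integral_multiples A K ({x} : Finset L)
  have h3 : algebraMap A K y ≠ 0 := by
    rwa [Ne, IsFractionRing.to_map_eq_zero_iff]
  have h4 : x = (algebraMap A K y)⁻¹ • (y • x) := by
    rw [← algebraMap_smul K y x, smul_smul, inv_mul_cancel₀ h3, one_smul]
  have h5 := hz (y • x) (hy x (Finset.mem_singleton_self x))
  rw [h4, map_smul, h5, smul_zero]
  rfl

variable {A}

/-- the coefficients of the elements of the associated order in `K[G]` lie in `A` if `|G|` is a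
unit -/
theorem coeff_mem_of_assocK (hn : IsUnit ((Nat.card (L ≃ₐ[K] L) : ℕ) : A))
    {z : MonoidAlgebra K (L ≃ₐ[K] L)}
    (hz : z ∈ assocK A (Subalgebra.toSubmodule (integralClosure A L))) (g : L ≃ₐ[K] L) :
    z.coeff g ∈ (algebraMap A K).range := by
  have key : ∀ w : MonoidAlgebra K (L ≃ₐ[K] L),
      w ∈ assocK A (Subalgebra.toSubmodule (integralClosure A L)) →
      w.coeff 1 ∈ (algebraMap A K).range := by
    intro w hw
    obtain ⟨P, hP, hP0⟩ := exists_monic_of_stable A (actKLin w) hw
    have h1 := isIntegral_trace_end _ P hP hP0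
    rw [trace_actK] at h1
    obtain ⟨c, hc⟩ := IsIntegrallyClosed.isIntegral_iff.1 h1
    obtain ⟨d, hd⟩ := hn
    refine ⟨(d⁻¹ : Aˣ) * c, ?_⟩
    rw [map_mul, hc]
    have h8 : ((Nat.card (L ≃ₐ[K] L) : ℕ) : K) = algebraMap A K d := by rw [hd]; simp
    rw [h8, ← mul_assoc, ← map_mul, Units.inv_mul, map_one, _root_.one_mul]
  have h2 : z * single g⁻¹ (1 : K) ∈ assocK A (Subalgebra.toSubmodule (integralClosure A L)) := by
    refine mul_mem hz fun x hx => ?_
    rw [actK_single, one_smul]
    exact map_mem_intCl A g⁻¹ hx
  have h3 := key _ h2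
  have h4 : (z * single g⁻¹ (1 : K)).coeff 1 = z.coeff g := by
    have := coeff_mul_single_eq_coeff_mul (x := z) (r := (1 : K)) (m := g⁻¹) (m₁ := 1) g
      (by intro m' _; rw [mul_inv_eq_one])
    rw [this, mul_one]
  rwa [h4] at h3

/-- the associated order in `K[G]` is `A[G]` if `|G|` is a unit -/
theorem assocK_eq_span (hn : IsUnit ((Nat.card (L ≃ₐ[K] L) : ℕ) : A)) :
    Subalgebra.toSubmodule (assocK (K := K) A (Subalgebra.toSubmodule (integralClosure A L))) =
      Submodule.span A (Set.range fun g : L ≃ₐ[K] L => single g (1 : K)) := by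
  classical
  apply le_antisymm
  · intro z hz
    have hz' : z = z.coeff.sum fun g c => single g c := (MonoidAlgebra.sum_coeff_single z).symm
    rw [hz', Finsupp.sum]
    refine sum_mem fun g _ => ?_
    obtain ⟨a, ha⟩ := coeff_mem_of_assocK hn hz g
    have : single g (z.coeff g) = a • single g (1 : K) := by
      rw [← ha, MonoidAlgebra.smul_single, Algebra.smul_def, mul_one]
    rw [this]
    exact Submodule.smul_mem _ _ (Submodule.subset_span ⟨g, rfl⟩)
  · rw [Submodule.span_le]
    rintro _ ⟨g, rfl⟩ x hx
    rw [actK_single, one_smul]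
    exact map_mem_intCl A g hx

theorem assocK_isHopfOrder (hn : IsUnit ((Nat.card (L ≃ₐ[K] L) : ℕ) : A)) :
    IsHopfOrder A K K (⊤ : Subalgebra K (MonoidAlgebra K (L ≃ₐ[K] L)))
      (assocK A (Subalgebra.toSubmodule (integralClosure A L))) := by
  classical
  have hs := assocK_eq_span (K := K) (L := L) hn
  have hmem : ∀ x, x ∈ assocK (K := K) A (Subalgebra.toSubmodule (integralClosure A L)) ↔
      x ∈ Submodule.span A (Set.range fun g : L ≃ₐ[K] L => single g (1 : K)) := by
    intro x
    rw [← hs]
    rfl
  have hb : ∀ g : L ≃ₐ[K] L, single g (1 : K) ∈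
      assocK (K := K) A (Subalgebra.toSubmodule (integralClosure A L)) := fun g =>
    (hmem _).2 (Submodule.subset_span ⟨g, rfl⟩)
  refine ⟨⟨fun _ _ => Algebra.mem_top, ?_, ?_⟩, ?_, ?_, ?_⟩
  · rw [hs]
    exact Submodule.fg_span (Set.finite_range _)
  · refine le_antisymm (fun x _ => (Algebra.mem_top : x ∈ (⊤ : Subalgebra K _))) ?_
    intro z _
    have hz' : z = z.coeff.sum fun g c => single g c := (MonoidAlgebra.sum_coeff_single z).symm
    rw [hz', Finsupp.sum]
    refine sum_mem fun g _ => ?_
    have : single g (z.coeff g) = (z.coeff g) • single g (1 : K) := by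
      rw [MonoidAlgebra.smul_single, smul_eq_mul, mul_one]
    rw [this]
    exact Submodule.smul_mem _ _ (Submodule.subset_span (hb g))
  · intro x hx
    have hx' := (hmem x).1 hx
    clear hx
    induction hx' using Submodule.span_induction with
    | mem x h =>
      obtain ⟨g, rfl⟩ := h
      refine Submodule.subset_span ⟨_, hb g, _, hb g, ?_⟩
      simp only [comul_single]
      simp
    | zero => rw [map_zero]; exact Submodule.zero_mem _
    | add a b _ _ ha hb => rw [map_add]; exact Submodule.add_mem _ ha hb
    | smul r a _ ha =>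
      rw [← algebraMap_smul K r a, map_smul, algebraMap_smul]
      exact Submodule.smul_mem _ _ ha
  · intro x hx
    have hx' := (hmem x).1 hx
    clear hx
    induction hx' using Submodule.span_induction with
    | mem x h =>
      obtain ⟨g, rfl⟩ := h
      exact ⟨1, by simp⟩
    | zero => exact ⟨0, by simp⟩
    | add a b _ _ ha hb => rw [map_add]; exact add_mem ha hb
    | smul r a _ ha =>
      rw [← algebraMap_smul K r a, map_smul, smul_eq_mul]
      exact mul_mem ⟨r, rfl⟩ ha
  · intro x hx
    have hx' := (hmem x).1 hx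
    clear hx
    rw [hmem]
    induction hx' using Submodule.span_induction with
    | mem x h =>
      obtain ⟨g, rfl⟩ := h
      refine Submodule.subset_span ⟨g⁻¹, ?_⟩
      simp [antipode_single]
    | zero => rw [map_zero]; exact Submodule.zero_mem _
    | add a b _ _ ha hb => rw [map_add]; exact Submodule.add_mem _ ha hb
    | smul r a _ ha =>
      rw [← algebraMap_smul K r a, map_smul, algebraMap_smul]
      exact Submodule.smul_mem _ _ ha

omit [IsGalois K L] in
theorem galAct_coeff_one {z : MonoidAlgebra L (N K L)} (g : L ≃ₐ[K] L) :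
    (galAct g z).coeff 1 = g (z.coeff 1) := by
  classical
  rw [← galHom_apply]
  induction z using MonoidAlgebra.induction_linear with
  | zero => simp
  | add a b ha hb => rw [map_add, MonoidAlgebra.coeff_add, Finsupp.add_apply, ha, hb,
      MonoidAlgebra.coeff_add, Finsupp.add_apply, map_add]
  | single n c =>
    rw [galHom_single]
    simp only [coeff_single, Finsupp.single_apply]
    by_cases h : n = 1
    · subst h; simp
    · rw [if_neg h, if_neg, map_zero]
      intro h'
      exact h (conj_eq_one_iff.1 h')

/-- if `|G|` is a unit and `𝔄_λ` is a Hopf order, its elements have integral coefficients -/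
theorem isIntegral_coeff_of_assocLam (hn : IsUnit ((Nat.card (L ≃ₐ[K] L) : ℕ) : A))
    (hH : IsHopfOrder A K L (Hlam K L)
      (assocLam A (Subalgebra.toSubmodule (integralClosure A L))))
    {z : MonoidAlgebra L (N K L)}
    (hz : z ∈ assocLam A (Subalgebra.toSubmodule (integralClosure A L))) (n : N K L) :
    IsIntegral A (z.coeff n) := by
  have : Finite (N K L) := Finite.of_equiv _ (lamEquiv (K := K) (L := L)).toEquiv
  have hn' : IsUnit ((Nat.card (N K L) : ℕ) : A) := by
    rw [← Nat.card_congr (lamEquiv (K := K) (L := L)).toEquiv]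
    exact hn
  refine isIntegral_coeff hH (fun x hx => ?_) z hz n
  have h1 : ∀ g : L ≃ₐ[K] L, g (x.coeff 1) = x.coeff 1 := by
    intro g
    have h2 : x ∈ Hlam K L := hx.1
    rw [← galAct_coeff_one, h2 g]
  obtain ⟨c, hc⟩ := (IsGalois.mem_range_algebraMap_iff_fixed _).2 h1
  have h3 : IsIntegral A x := IsIntegral.of_mem_of_fg _ hH.order.fg x hx
  have h4 := isIntegral_coeff_one hn' x h3
  rw [← hc] at h4 ⊢
  have h5 : IsIntegral A c := (isIntegral_algebraMap_iff (algebraMap K L).injective).1 h4
  obtain ⟨a, ha⟩ := IsIntegrallyClosed.isIntegral_iff.1 h5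
  exact ⟨a, by rw [← ha, ← IsScalarTower.algebraMap_apply]⟩

end Pool.Agent.Q21.HG
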