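import Pool.Agent.Q21.HG.Hopf

set_option autoImplicit false

namespace Pool.Agent.Q21.HG

open MonoidAlgebra Polynomial TensorProduct

variable {K L : Type*} [Field K] [Field L] [Algebra K L]

/-- The action of `K[G]` on `L`: `(∑ c_g g) x = ∑ c_g g(x)`. -/
noncomputable def actK (z : MonoidAlgebra K (L ≃ₐ[K] L)) (x : L) : L :=
  z.coeff.sum fun g c => c • g x

theorem actK_single (g : L ≃ₐ[K] L) (c : K) (x : L) : actK (single g c) x = c • g x := by
  simp [actK]

theorem actK_zero (x : L) : actK (0 : MonoidAlgebra K (L ≃ₐ[K] L)) x = 0 := by simp [actK]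

theorem actK_add (z w : MonoidAlgebra K (L ≃ₐ[K] L)) (x : L) :
    actK (z + w) x = actK z x + actK w x := by
  simp only [actK, MonoidAlgebra.coeff_add]
  rw [Finsupp.sum_add_index'] <;> simp [add_smul]

theorem actK_add_right (z : MonoidAlgebra K (L ≃ₐ[K] L)) (x y : L) :
    actK z (x + y) = actK z x + actK z y := by
  simp only [actK, map_add, smul_add, Finsupp.sum_add]

theorem actK_smul_right (z : MonoidAlgebra K (L ≃ₐ[K] L)) (r : K) (x : L) :
    actK z (r • x) = r • actK z x := by
  simp only [actK, map_smul, Finsupp.smul_sum, smul_comm r]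

theorem actK_one (x : L) : actK (1 : MonoidAlgebra K (L ≃ₐ[K] L)) x = x := by
  rw [one_def, actK_single]; simp

theorem actK_smul (z : MonoidAlgebra K (L ≃ₐ[K] L)) (r : K) (x : L) :
    actK (r • z) x = r • actK z x := by
  simp only [actK, MonoidAlgebra.coeff_smul]
  rw [Finsupp.sum_smul_index' (by simp), Finsupp.smul_sum]
  simp [mul_smul]

theorem actK_mul (z w : MonoidAlgebra K (L ≃ₐ[K] L)) (x : L) :
    actK (z * w) x = actK z (actK w x) := by
  induction z using MonoidAlgebra.induction_linear with
  | zero => simp [actK_zero]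
  | add a b ha hb => rw [add_mul, actK_add, actK_add, ha, hb]
  | single n c =>
    rw [actK_single]
    induction w using MonoidAlgebra.induction_linear with
    | zero => simp [actK_zero]
    | add a b ha hb => rw [mul_add, actK_add, actK_add, ha, hb, map_add, smul_add]
    | single m d =>
      rw [single_mul_single, actK_single, actK_single, map_smul, smul_smul]
      simp [AlgEquiv.mul_apply]

variable (A : Type*) [CommRing A] [Algebra A K] [Algebra A L] [IsScalarTower A K L]

/-- The associated order `𝔄_{K[G]} = {z ∈ K[G] : z(𝔅) ⊆ 𝔅}`. -/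
noncomputable def assocK (M : Submodule A L) : Subalgebra A (MonoidAlgebra K (L ≃ₐ[K] L)) where
  carrier := {z | ∀ x ∈ M, actK z x ∈ M}
  mul_mem' {a b} ha hb x hx := by rw [actK_mul]; exact ha _ (hb _ hx)
  add_mem' {a b} ha hb x hx := by rw [actK_add]; exact add_mem (ha _ hx) (hb _ hx)
  algebraMap_mem' r x hx := by
    have h1 : algebraMap A (MonoidAlgebra K (L ≃ₐ[K] L)) r = single 1 (algebraMap A K r) := by
      rw [coe_algebraMap]; rfl
    rw [h1, actK_single, algebraMap_smul]
    exact M.smul_mem r hx

/-- The associated order `𝔄_λ = {h ∈ H_λ : h · 𝔅 ⊆ 𝔅}`. -/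
noncomputable def assocLam (M : Submodule A L) : Subalgebra A (MonoidAlgebra L (N K L)) where
  carrier := {z | z ∈ Hlam K L ∧ ∀ x ∈ M, act z x ∈ M}
  mul_mem' {a b} ha hb := ⟨mul_mem ha.1 hb.1, fun x hx => by
    rw [act_mul _ hb.1]; exact ha.2 _ (hb.2 _ hx)⟩
  add_mem' {a b} ha hb := ⟨add_mem ha.1 hb.1, fun x hx => by
    rw [act_add]; exact add_mem (ha.2 _ hx) (hb.2 _ hx)⟩
  algebraMap_mem' r := by
    have h1 : algebraMap A (MonoidAlgebra L (N K L)) r =
        (algebraMap K (MonoidAlgebra L (N K L))) (algebraMap A K r) := by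
      rw [coe_algebraMap, coe_algebraMap]
      simp [← IsScalarTower.algebraMap_apply]
    refine ⟨?_, fun x hx => ?_⟩
    · rw [h1]; exact (Hlam K L).algebraMap_mem _
    · rw [h1, Algebra.algebraMap_eq_smul_one, act_smul, act_one, algebraMap_smul]
      exact M.smul_mem r hx

theorem assocLam_eq (B : Subalgebra A L) :
    assocLam (K := K) A (Subalgebra.toSubmodule B) = assocOrder A B := by
  ext z; rfl

section

variable [FiniteDimensional K L] [IsGalois K L]

/-- the action as a linear map -/
noncomputable def actKLin (z : MonoidAlgebra K (L ≃ₐ[K] L)) : Module.End K L where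
  toFun := actK z
  map_add' := actK_add_right z
  map_smul' := actK_smul_right z

theorem trace_algEquiv (g : L ≃ₐ[K] L) (hg : g ≠ 1) :
    LinearMap.trace K L g.toLinearMap = 0 := by
  classical
  let b : Module.Basis (L ≃ₐ[K] L) K L := IsGalois.normalBasis K L
  have hb : ∀ e : L ≃ₐ[K] L, b e = e (b 1) := fun e =>
    IsGalois.normalBasis_apply (K := K) (L := L) e
  rw [LinearMap.trace_eq_matrix_trace K b, Matrix.trace]
  refine Finset.sum_eq_zero fun i _ => ?_
  rw [Matrix.diag_apply, LinearMap.toMatrix_apply]
  have h1 : g.toLinearMap (b i) = b (g * i) := by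
    have h0 : (g * i) (b 1) = g (i (b 1)) := rfl
    change g (b i) = b (g * i)
    rw [hb i, hb (g * i), h0]
  rw [h1, b.repr_self, Finsupp.single_apply, if_neg]
  intro h
  exact hg (mul_eq_right.1 h)

theorem trace_actK (z : MonoidAlgebra K (L ≃ₐ[K] L)) :
    LinearMap.trace K L (actKLin z) = (Nat.card (L ≃ₐ[K] L) : K) * z.coeff 1 := by
  classical
  induction z using MonoidAlgebra.induction_linear with
  | zero =>
    have : actKLin (0 : MonoidAlgebra K (L ≃ₐ[K] L)) = 0 := by
      ext x; exact actK_zero (K := K) x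
    rw [this]; simp
  | add a b ha hb =>
    have : actKLin (a + b) = actKLin a + actKLin b := by
      ext x; exact actK_add a b x
    rw [this, map_add, ha, hb, MonoidAlgebra.coeff_add, Finsupp.add_apply, mul_add]
  | single g c =>
    have h1 : actKLin (single g c) = c • g.toLinearMap := by
      ext x; exact actK_single g c x
    rw [h1, map_smul]
    by_cases hg : g = 1
    · subst hg
      have h2 : (1 : L ≃ₐ[K] L).toLinearMap = LinearMap.id := rfl
      rw [h2, LinearMap.trace_id, IsGalois.card_aut_eq_finrank]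
      simp [mul_comm]
    · rw [trace_algEquiv g hg]
      simp [hg]

end

end Pool.Agent.Q21.HG
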