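import Mathlib

/-!
# The canonical nonclassical Hopf-Galois structure on a Galois extension

`G = Gal(L/K)`, `λ : G → Perm G` the left regular representation, `N = λ(G)`,
`H_λ = L[N]^G`, acting on `L` by `(∑ c_n n) · x = ∑ c_n (n⁻¹(1))(x)`.
-/

set_option autoImplicit false

namespace Pool.Agent.Q21.HG

open MonoidAlgebra

variable (K L : Type*) [Field K] [Field L] [Algebra K L]

/-- The left regular representation `λ(g)(h) = g h` of `G = Gal(L/K)`. -/
def lam : (L ≃ₐ[K] L) →* Equiv.Perm (L ≃ₐ[K] L) where
  toFun g := Equiv.mulLeft g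
  map_one' := by ext h; simp
  map_mul' g h := by ext k; simp

/-- `N = λ(G)`, a subgroup of `Perm G`. -/
def N : Subgroup (Equiv.Perm (L ≃ₐ[K] L)) := (lam K L).range

variable {K L}

/-- `λ(g)` as an element of `N`. -/
def lamN (g : L ≃ₐ[K] L) : N K L := ⟨lam K L g, g, rfl⟩

/-- The action of `G` on `L[N]`: `g · (∑ c_n n) = ∑ g(c_n) λ(g) n λ(g)⁻¹`. -/
noncomputable def galAct (g : L ≃ₐ[K] L) (z : MonoidAlgebra L (N K L)) :
    MonoidAlgebra L (N K L) :=
  z.coeff.sum fun n c => single (lamN g * n * (lamN g)⁻¹) (g c)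

/-- The action of `L[N]` on `L`: `(∑ c_n n) · x = ∑ c_n (n⁻¹(1_G))(x)`. -/
noncomputable def act (z : MonoidAlgebra L (N K L)) (x : L) : L :=
  z.coeff.sum fun n c => c * ((n⁻¹ : N K L) : Equiv.Perm (L ≃ₐ[K] L)) 1 x

/-! ### elementary properties -/

theorem lamN_mul (g h : L ≃ₐ[K] L) : lamN (g * h) = lamN g * lamN h :=
  Subtype.ext ((lam K L).map_mul g h)

theorem lamN_one : lamN (1 : L ≃ₐ[K] L) = 1 := Subtype.ext (lam K L).map_one

theorem lamN_inv (g : L ≃ₐ[K] L) : lamN g⁻¹ = (lamN g)⁻¹ := Subtype.ext ((lam K L).map_inv g)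

theorem lamN_apply_one (g : L ≃ₐ[K] L) : (lamN g : Equiv.Perm (L ≃ₐ[K] L)) 1 = g := by
  simp [lamN, lam]

theorem lamN_injective : Function.Injective (lamN : (L ≃ₐ[K] L) → N K L) := by
  intro g h e
  rw [← lamN_apply_one g, e, lamN_apply_one]

theorem lamN_surjective : Function.Surjective (lamN : (L ≃ₐ[K] L) → N K L) := by
  rintro ⟨_, g, rfl⟩
  exact ⟨g, rfl⟩

/-- the isomorphism `G ≃ N` -/
noncomputable def lamEquiv : (L ≃ₐ[K] L) ≃* N K L :=
  MulEquiv.ofBijective (⟨⟨lamN, lamN_one⟩, lamN_mul⟩ : (L ≃ₐ[K] L) →* N K L)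
    ⟨lamN_injective, lamN_surjective⟩

@[simp] theorem lamEquiv_apply (g : L ≃ₐ[K] L) : lamEquiv g = lamN g := rfl

/-- the ring endomorphism of `L[N]` given by `galAct` -/
noncomputable def galHom (g : L ≃ₐ[K] L) :
    MonoidAlgebra L (N K L) →+* MonoidAlgebra L (N K L) :=
  liftNCRingHom (singleOneRingHom.comp (g : L →+* L))
    ((of L (N K L)).comp (MulAut.conj (lamN g)).toMonoidHom) (by
      intro x y
      simp only [RingHom.comp_apply, MonoidHom.comp_apply]
      simp [Commute, SemiconjBy, singleOneRingHom, single_mul_single])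

theorem galHom_single (g : L ≃ₐ[K] L) (n : N K L) (c : L) :
    galHom g (single n c) = single (lamN g * n * (lamN g)⁻¹) (g c) := by
  simp [galHom, singleOneRingHom, single_mul_single]

theorem galHom_apply (g : L ≃ₐ[K] L) (z : MonoidAlgebra L (N K L)) : galHom g z = galAct g z := by
  induction z using MonoidAlgebra.induction_linear with
  | zero => simp [galAct]
  | add x y hx hy =>
    rw [map_add, hx, hy]
    simp only [galAct, coeff_add]
    rw [Finsupp.sum_add_index'] <;> simp
  | single n c =>
    rw [galHom_single]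
    simp [galAct]

variable (K L) in
/-- `H_λ = L[N]^G`, a `K`-algebra. -/
noncomputable def Hlam : Subalgebra K (MonoidAlgebra L (N K L)) where
  carrier := {z | ∀ g : L ≃ₐ[K] L, galAct g z = z}
  mul_mem' {a b} ha hb g := by
    rw [← galHom_apply, map_mul, galHom_apply, galHom_apply, ha, hb]
  one_mem' g := by rw [← galHom_apply, map_one]
  add_mem' {a b} ha hb g := by
    rw [← galHom_apply, map_add, galHom_apply, galHom_apply, ha, hb]
  zero_mem' g := by rw [← galHom_apply, map_zero]
  algebraMap_mem' r g := by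
    rw [← galHom_apply, coe_algebraMap]
    simp [galHom_single]

theorem mem_Hlam {z : MonoidAlgebra L (N K L)} : z ∈ Hlam K L ↔ ∀ g, galAct g z = z := Iff.rfl

/-! ### the action -/

theorem ev_lamN (g : L ≃ₐ[K] L) :
    (((lamN g)⁻¹ : N K L) : Equiv.Perm (L ≃ₐ[K] L)) 1 = g⁻¹ := by
  rw [← lamN_inv, lamN_apply_one]

theorem act_single (n : N K L) (c x : L) :
    act (single n c) x = c * ((n⁻¹ : N K L) : Equiv.Perm (L ≃ₐ[K] L)) 1 x := by
  simp [act]

theorem act_single_lamN (g : L ≃ₐ[K] L) (c x : L) :
    act (single (lamN g) c) x = c * g⁻¹ x := by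
  rw [act_single, ev_lamN]

theorem act_zero (x : L) : act (0 : MonoidAlgebra L (N K L)) x = 0 := by simp [act]

theorem act_add (z w : MonoidAlgebra L (N K L)) (x : L) : act (z + w) x = act z x + act w x := by
  simp only [act, coeff_add]
  rw [Finsupp.sum_add_index'] <;> simp [add_mul]

theorem act_add_right (z : MonoidAlgebra L (N K L)) (x y : L) :
    act z (x + y) = act z x + act z y := by
  simp only [act, map_add, mul_add, Finsupp.sum_add]

theorem act_smul_right (z : MonoidAlgebra L (N K L)) (r : K) (x : L) :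
    act z (r • x) = r • act z x := by
  simp only [act, map_smul, mul_smul_comm, Finsupp.smul_sum]

theorem act_smul (z : MonoidAlgebra L (N K L)) (r : K) (x : L) :
    act (r • z) x = r • act z x := by
  simp only [act, coeff_smul]
  rw [Finsupp.sum_smul_index' (by simp), Finsupp.smul_sum]
  simp

theorem act_one (x : L) : act (1 : MonoidAlgebra L (N K L)) x = x := by
  rw [one_def, ← lamN_one, act_single_lamN]
  simp

theorem act_galAct (g : L ≃ₐ[K] L) (z : MonoidAlgebra L (N K L)) (x : L) :
    act (galAct g z) (g x) = g (act z x) := by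
  induction z using MonoidAlgebra.induction_linear with
  | zero => rw [← galHom_apply, map_zero, act_zero, act_zero, map_zero]
  | add a b ha hb =>
    rw [← galHom_apply, map_add, act_add, galHom_apply, galHom_apply, ha, hb, act_add, map_add]
  | single n c =>
    obtain ⟨s, rfl⟩ := lamN_surjective n
    rw [← galHom_apply, galHom_single, ← lamN_mul, ← lamN_inv, ← lamN_mul, act_single_lamN,
      act_single_lamN, map_mul]
    simp [AlgEquiv.mul_apply]

theorem act_comm {z : MonoidAlgebra L (N K L)} (hz : z ∈ Hlam K L) (g : L ≃ₐ[K] L) (x : L) :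
    act z (g x) = g (act z x) := by
  conv_lhs => rw [← hz g]
  exact act_galAct g z x

theorem act_mul (z : MonoidAlgebra L (N K L)) {w : MonoidAlgebra L (N K L)} (hw : w ∈ Hlam K L)
    (x : L) : act (z * w) x = act z (act w x) := by
  induction z using MonoidAlgebra.induction_linear with
  | zero => simp [act_zero]
  | add a b ha hb => rw [add_mul, act_add, act_add, ha, hb]
  | single n c =>
    obtain ⟨s, rfl⟩ := lamN_surjective n
    rw [act_single_lamN, ← act_comm hw]
    clear hw
    induction w using MonoidAlgebra.induction_linear with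
    | zero => simp [act_zero]
    | add a b ha hb => rw [mul_add, act_add, act_add, ha, hb, mul_add]
    | single m d =>
      obtain ⟨t, rfl⟩ := lamN_surjective m
      rw [single_mul_single, ← lamN_mul, act_single_lamN, act_single_lamN, mul_assoc]
      simp [AlgEquiv.mul_apply]

variable (K L) in
/-- the action of `H_λ` on `L` as a homomorphism of `K`-algebras -/
noncomputable def actHom : Hlam K L →ₐ[K] Module.End K L :=
  AlgHom.ofLinearMap
    { toFun := fun z =>
        { toFun := act (z : MonoidAlgebra L (N K L))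
          map_add' := act_add_right _
          map_smul' := act_smul_right _ }
      map_add' := fun _ _ => LinearMap.ext fun x => act_add _ _ x
      map_smul' := fun r _ => LinearMap.ext fun x => act_smul _ r x }
    (LinearMap.ext fun x => act_one x)
    (fun _ w => LinearMap.ext fun x => act_mul _ w.2 x)

theorem actHom_apply (z : Hlam K L) (x : L) : actHom K L z x = act (z : MonoidAlgebra L (N K L)) x :=
  rfl

section finite

variable [FiniteDimensional K L]

theorem act_eq_sum (z : MonoidAlgebra L (N K L)) (x : L) :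
    act z x = ∑ g : L ≃ₐ[K] L, z.coeff (lamN g) * g⁻¹ x := by
  induction z using MonoidAlgebra.induction_linear with
  | zero => simp [act_zero]
  | add a b ha hb => simp [act_add, ha, hb, add_mul, Finset.sum_add_distrib]
  | single n c =>
    obtain ⟨s, rfl⟩ := lamN_surjective n
    rw [act_single_lamN, Finset.sum_eq_single s]
    · simp
    · intro g _ hg
      rw [coeff_single, Finsupp.single_eq_of_ne (fun h => hg (lamN_injective h)), zero_mul]
    · simp

/-- The action of `L[N]` on `L` is faithful (independence of automorphisms). -/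
theorem act_injective {z : MonoidAlgebra L (N K L)} (hz : ∀ x, act z x = 0) : z = 0 := by
  have h1 : ∀ x, ∑ g : L ≃ₐ[K] L, z.coeff (lamN g⁻¹) * g x = 0 := by
    intro x
    rw [← hz x, act_eq_sum]
    exact Fintype.sum_equiv (Equiv.inv _) _ _ (fun g => by simp)
  have h2 : LinearIndependent L (fun g : L ≃ₐ[K] L => ((g : L →* L) : L → L)) := by
    refine (linearIndependent_monoidHom L L).comp (fun g : L ≃ₐ[K] L => (g : L →* L)) ?_
    intro g h e
    ext x
    exact DFunLike.congr_fun e x
  rw [Fintype.linearIndependent_iff] at h2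
  have h3 := h2 (fun g => z.coeff (lamN g⁻¹)) (by
    ext x
    simpa using h1 x)
  ext n
  obtain ⟨g, rfl⟩ := lamN_surjective n
  have := h3 g⁻¹
  simpa using this

end finite

end Pool.Agent.Q21.HG
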