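import Pool.Agent.Q21.HG.ClassHopf

set_option autoImplicit false

namespace Pool.Agent.Q21.HG

open MonoidAlgebra Polynomial

instance fact5 : Fact (Nat.Prime 5) := ⟨by norm_num⟩

theorem no_cube (x : ℚ_[5]) : x ^ 3 ≠ 5 := by
  intro h
  have h5 : ‖(5 : ℚ_[5])‖ = (5 : ℝ)⁻¹ := by
    have := Padic.norm_p (p := 5)
    simpa using this
  have hx : x ≠ 0 := by
    rintro rfl
    have : (5 : ℚ_[5]) ≠ 0 := by norm_num
    exact this (by rw [← h]; simp)
  have h1 : ‖x‖ ^ 3 = (5 : ℝ)⁻¹ := by rw [← norm_pow, h, h5]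
  rw [Padic.norm_eq_zpow_neg_valuation hx] at h1
  have h2 : ((5 : ℕ) : ℝ) ^ (-x.valuation * 3) = ((5 : ℕ) : ℝ) ^ (-1 : ℤ) := by
    rw [zpow_mul, zpow_neg_one]
    exact_mod_cast h1
  have h3 := zpow_right_injective₀ (by norm_num) (by norm_num) h2
  omega

theorem no_omega (x : ℚ_[5]) : x ^ 2 + x + 1 ≠ 0 := by
  intro h
  have h1 : x ^ 3 = 1 := by linear_combination (x - 1) * h
  have h2 : ‖x‖ ^ 3 = 1 := by rw [← norm_pow, h1, norm_one]
  have h3 : ‖x‖ = 1 := by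
    exact (pow_eq_one_iff_of_nonneg (norm_nonneg x) (by norm_num)).1 h2
  let y : ℤ_[5] := ⟨x, h3.le⟩
  have h4 : y ^ 2 + y + 1 = 0 := by
    apply Subtype.ext
    push_cast
    exact h
  have h5 := congrArg (PadicInt.toZMod (p := 5)) h4
  simp only [map_add, map_pow, map_one, map_zero] at h5
  revert h5
  generalize PadicInt.toZMod y = z
  revert z
  decide

/-- `X³ - 5` over `ℚ_5` -/
noncomputable abbrev f5 : ℚ_[5][X] := X ^ 3 - C 5

/-- the splitting field of `X³ - 5` over `ℚ_5` -/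
abbrev L5 : Type := (f5).SplittingField

theorem f5_irred : Irreducible f5 :=
  X_pow_sub_C_irreducible_of_prime Nat.prime_three no_cube

theorem f5_deg : f5.natDegree = 3 := natDegree_X_pow_sub_C

theorem f5_sep : f5.Separable := f5_irred.separable

instance galois5 : IsGalois ℚ_[5] L5 := IsGalois.of_separable_splitting_field f5_sep

theorem card5 : Nat.card (L5 ≃ₐ[ℚ_[5]] L5) ∣ 6 := by
  classical
  have hf : Fact ((f5.map (algebraMap ℚ_[5] L5)).Splits) := ⟨SplittingField.splits f5⟩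
  have h1 := Polynomial.Gal.galActionHom_injective f5 L5
  have h2 := Subgroup.card_dvd_of_injective (Polynomial.Gal.galActionHom f5 L5) h1
  have h3 : Nat.card (Equiv.Perm (f5.rootSet L5)) = 6 := by
    rw [Nat.card_perm, Nat.card_eq_fintype_card,
      card_rootSet_eq_natDegree f5_sep (SplittingField.splits f5), f5_deg]
    rfl
  rw [h3] at h2
  exact h2

theorem card5_unit : IsUnit ((Nat.card (L5 ≃ₐ[ℚ_[5]] L5) : ℕ) : ℤ_[5]) := by
  rw [PadicInt.isUnit_iff, PadicInt.norm_natCast_eq_one_iff]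
  exact Nat.Coprime.coprime_dvd_right card5 (by norm_num)

theorem exists_pi : ∃ π ζ : L5, π ^ 3 = 5 ∧ ζ ^ 2 + ζ + 1 = 0 := by
  classical
  have h1 : Fintype.card (f5.rootSet L5) = 3 := by
    rw [card_rootSet_eq_natDegree f5_sep (SplittingField.splits f5), f5_deg]
  have h2 : 1 < Fintype.card (f5.rootSet L5) := by omega
  obtain ⟨⟨a, ha⟩, ⟨b, hb⟩, hab⟩ := Fintype.exists_pair_of_one_lt_card h2
  have hroot : ∀ c : L5, c ∈ f5.rootSet L5 → c ^ 3 = 5 := by
    intro c hc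
    have := (mem_rootSet.1 hc).2
    simp only [map_sub, map_pow, aeval_X, aeval_C] at this
    rw [sub_eq_zero.1 this]
    exact map_ofNat (algebraMap ℚ_[5] L5) 5
  have ha3 := hroot a ha
  have hb3 := hroot b hb
  have ha0 : a ≠ 0 := by
    rintro rfl
    have : (5 : L5) ≠ 0 := by norm_num
    exact this (by rw [← ha3]; simp)
  refine ⟨a, b / a, ha3, ?_⟩
  have hne : b / a ≠ 1 := by
    intro h
    rw [div_eq_one_iff_eq ha0] at h
    exact hab (Subtype.ext h.symm)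
  have h3 : (b / a) ^ 3 = 1 := by
    rw [div_pow, ha3, hb3, div_self (by norm_num)]
  have h4 : (b / a - 1) * ((b / a) ^ 2 + b / a + 1) = 0 := by linear_combination h3
  exact (mul_eq_zero.1 h4).resolve_left (sub_ne_zero.2 hne)

theorem zeta_not_mem {π ζ : L5} (hπ : π ^ 3 = 5) (hζ : ζ ^ 2 + ζ + 1 = 0) :
    ζ ∉ IntermediateField.adjoin ℚ_[5] {π} := by
  intro h
  have hint : IsIntegral ℚ_[5] π := IsIntegral.of_finite _ _
  have hmin : minpoly ℚ_[5] π = f5 := by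
    symm
    refine minpoly.eq_of_irreducible_of_monic f5_irred ?_ (monic_X_pow_sub_C _ (by norm_num))
    have h5 : (algebraMap ℚ_[5] L5) 5 = 5 := map_ofNat (algebraMap ℚ_[5] L5) 5
    simp [hπ, h5]
  have h1 : Module.finrank ℚ_[5] (IntermediateField.adjoin ℚ_[5] {π}) = 3 := by
    rw [IntermediateField.adjoin.finrank hint, hmin, f5_deg]
  let z : IntermediateField.adjoin ℚ_[5] {π} := ⟨ζ, h⟩
  have hz : z ^ 2 + z + 1 = 0 := Subtype.ext hζ
  have hfd : FiniteDimensional ℚ_[5] (IntermediateField.adjoin ℚ_[5] {π}) := inferInstance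
  have hzint : IsIntegral ℚ_[5] z := IsIntegral.of_finite _ _
  have h2 : (minpoly ℚ_[5] z).natDegree ∣ 3 := by
    rw [← h1]
    exact minpoly.degree_dvd hzint
  have h3 : (minpoly ℚ_[5] z).natDegree ≤ 2 := by
    have h4 : minpoly ℚ_[5] z ∣ (X ^ 2 + X + 1 : ℚ_[5][X]) := by
      apply minpoly.dvd
      simpa using hz
    have h5 : (X ^ 2 + X + 1 : ℚ_[5][X]).natDegree = 2 := by compute_degree!
    have h6 : (X ^ 2 + X + 1 : ℚ_[5][X]) ≠ 0 := by
      intro h0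
      rw [h0] at h5
      simp at h5
    rw [← h5]
    exact natDegree_le_of_dvd h4 h6
  have h4 : (minpoly ℚ_[5] z).natDegree = 1 := by
    have := (Nat.dvd_prime Nat.prime_three).1 h2
    omega
  obtain ⟨x, hx⟩ := minpoly.natDegree_eq_one_iff.1 h4
  refine no_omega x ?_
  apply (algebraMap ℚ_[5] (IntermediateField.adjoin ℚ_[5] {π})).injective
  rw [map_add, map_add, map_pow, hx, map_one, map_zero, hz]

theorem exists_tau {π ζ : L5} (hπ : π ^ 3 = 5) (hζ : ζ ^ 2 + ζ + 1 = 0) :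
    ∃ τ : L5 ≃ₐ[ℚ_[5]] L5, τ π = π ∧ τ ζ ≠ ζ := by
  by_contra hcon
  push Not at hcon
  apply zeta_not_mem hπ hζ
  rw [← IsGalois.fixedField_fixingSubgroup (IntermediateField.adjoin ℚ_[5] {π})]
  rw [IntermediateField.mem_fixedField_iff]
  intro g hg
  apply hcon
  rw [IntermediateField.mem_fixingSubgroup_iff] at hg
  exact hg π (IntermediateField.mem_adjoin_simple_self _ _)

theorem exists_sigma {π : L5} (hπ : π ^ 3 = 5) : ∃ σ : L5 ≃ₐ[ℚ_[5]] L5, σ π ≠ π := by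
  by_contra hcon
  push Not at hcon
  obtain ⟨x, hx⟩ := (IsGalois.mem_range_algebraMap_iff_fixed π).2 hcon
  apply no_cube x
  apply (algebraMap ℚ_[5] L5).injective
  rw [map_pow, hx, hπ]
  exact (map_ofNat (algebraMap ℚ_[5] L5) 5).symm

theorem cube_roots {ζ : L5} (hζ : ζ ^ 2 + ζ + 1 = 0) {ρ : L5} (hρ : ρ ^ 3 = 1) :
    ρ = 1 ∨ ρ = ζ ∨ ρ = ζ ^ 2 := by
  have h : (ρ - 1) * ((ρ - ζ) * (ρ - ζ ^ 2)) = 0 := by
    have e : (ρ - 1) * ((ρ - ζ) * (ρ - ζ ^ 2)) = ρ ^ 3 - 1 - (ζ ^ 2 + ζ + 1) *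
        (ρ ^ 2 - ζ * ρ + (ζ - 1)) := by ring
    rw [e, hζ, hρ]; ring
  rcases mul_eq_zero.1 h with h | h
  · exact Or.inl (sub_eq_zero.1 h)
  · rcases mul_eq_zero.1 h with h | h
    · exact Or.inr (Or.inl (sub_eq_zero.1 h))
    · exact Or.inr (Or.inr (sub_eq_zero.1 h))

end Pool.Agent.Q21.HG
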