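import Pool.Agent.Q21.HG.Maximal

set_option autoImplicit false

namespace Pool.Agent.Q21.HG

open MonoidAlgebra Polynomial TensorProduct

/-- `𝔄` is a Hopf `A`-order of the `K`-Hopf algebra `H` inside the group algebra `F[Γ]` (with the
group-algebra Hopf structure `Δ(γ) = γ ⊗ γ`, `ε(γ) = 1`, `S(γ) = γ⁻¹`): an order with
`Δ(𝔄) ⊆ 𝔄 ⊗ 𝔄`, `ε(𝔄) ⊆ A` and `S(𝔄) ⊆ 𝔄`. -/
structure IsHopfOrder (A K F : Type*) {Γ : Type*} [CommRing A] [Field K] [Field F] [Group Γ]
    [Algebra A F] [Algebra K F] (H : Subalgebra K (MonoidAlgebra F Γ))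
    (𝔄 : Subalgebra A (MonoidAlgebra F Γ)) : Prop where
  order : IsOrder A K H 𝔄
  comul : ∀ x ∈ 𝔄, Coalgebra.comul (R := F) x ∈ Submodule.span A
    {t : MonoidAlgebra F Γ ⊗[F] MonoidAlgebra F Γ | ∃ a ∈ 𝔄, ∃ b ∈ 𝔄, t = a ⊗ₜ[F] b}
  counit : ∀ x ∈ 𝔄, Coalgebra.counit (R := F) x ∈ (algebraMap A F).range
  antipode : ∀ x ∈ 𝔄, HopfAlgebra.antipode F x ∈ 𝔄

section general

variable {A F Γ : Type*} [CommRing A] [Field F] [Group Γ] [Algebra A F] [Finite Γ]

/-- the coefficient at `1` of an integral element is integral if `|Γ|` is a unit -/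
theorem isIntegral_coeff_one (hn : IsUnit ((Nat.card Γ : ℕ) : A)) (h : MonoidAlgebra F Γ)
    (hh : IsIntegral A h) : IsIntegral A (h.coeff 1) := by
  classical
  have := Fintype.ofFinite Γ
  obtain ⟨P, hP, hP0⟩ := hh
  let b : Module.Basis Γ F (MonoidAlgebra F Γ) := Module.Basis.ofRepr (coeffLinearEquiv F)
  have hfin : FiniteDimensional F (MonoidAlgebra F Γ) := Module.Basis.finiteDimensional_of_finite b
  let f : Module.End F (MonoidAlgebra F Γ) := Algebra.lmul F (MonoidAlgebra F Γ) h
  have h1 : aeval f (P.map (algebraMap A F)) = 0 := by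
    have h2 := Polynomial.aeval_algHom_apply (Algebra.lmul F (MonoidAlgebra F Γ)) h
      (P.map (algebraMap A F))
    have h3 : aeval h (P.map (algebraMap A F)) = 0 := by
      rw [Polynomial.aeval_map_algebraMap]; exact hP0
    rw [h3, map_zero] at h2
    exact h2
  have h4 := isIntegral_trace_end f P hP h1
  have h5 : LinearMap.trace F _ f = (Nat.card Γ : F) * h.coeff 1 := by
    rw [LinearMap.trace_eq_matrix_trace F b, Matrix.trace]
    have h6 : ∀ i : Γ, (LinearMap.toMatrix b b f).diag i = h.coeff 1 := by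
      intro i
      rw [Matrix.diag_apply, LinearMap.toMatrix_apply]
      have h7 : b i = single i 1 := by
        apply b.repr.injective
        rw [b.repr_self]
        rfl
      rw [h7]
      change (h * single i (1 : F)).coeff i = _
      have := coeff_mul_single_eq_coeff_mul (x := h) (r := (1 : F)) (m := i) (m₁ := i) (1 : Γ)
        (by intro m' _; simp)
      rw [this, mul_one]
    rw [Finset.sum_congr rfl (fun i _ => h6 i), Finset.sum_const, Finset.card_univ, nsmul_eq_mul,
      Nat.card_eq_fintype_card]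
  rw [h5] at h4
  obtain ⟨d, hd⟩ := hn
  have h8 : h.coeff 1 = algebraMap A F (d⁻¹ : Aˣ) * ((Nat.card Γ : F) * h.coeff 1) := by
    have h9 : (Nat.card Γ : F) = algebraMap A F d := by rw [hd]; simp
    rw [h9, ← mul_assoc, ← map_mul, Units.inv_mul, (algebraMap A F).map_one, _root_.one_mul]
  rw [h8]
  exact isIntegral_algebraMap.mul h4

/-- `x ⊗ y ↦ τ(y S(b)) x`, `τ` the coefficient at `1` -/
noncomputable def Psi (b : MonoidAlgebra F Γ) :
    MonoidAlgebra F Γ ⊗[F] MonoidAlgebra F Γ →ₗ[F] MonoidAlgebra F Γ :=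
  TensorProduct.lift (LinearMap.mk₂ F (fun x y => (y * HopfAlgebra.antipode F b).coeff 1 • x)
    (by intro x x' y; rw [smul_add])
    (by intro c x y; rw [smul_comm])
    (by intro x y y'; rw [add_mul, MonoidAlgebra.coeff_add, Finsupp.add_apply, add_smul])
    (by intro c x y; rw [smul_mul_assoc, MonoidAlgebra.coeff_smul, Finsupp.smul_apply, smul_assoc]))

theorem Psi_tmul (b x y : MonoidAlgebra F Γ) :
    Psi b (x ⊗ₜ y) = (y * HopfAlgebra.antipode F b).coeff 1 • x := by
  simp [Psi]

theorem coeff_one_antipode (b : MonoidAlgebra F Γ) (n : Γ) (d : F) :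
    (single n d * HopfAlgebra.antipode F b).coeff 1 = d * b.coeff n := by
  classical
  induction b using MonoidAlgebra.induction_linear with
  | zero => simp
  | add a b ha hb => rw [map_add, mul_add, MonoidAlgebra.coeff_add, Finsupp.add_apply, ha, hb,
      MonoidAlgebra.coeff_add, Finsupp.add_apply, mul_add]
  | single m c =>
    rw [antipode_single, single_mul_single]
    simp only [coeff_single, Finsupp.single_apply]
    by_cases h : m = n
    · subst h; simp
    · rw [if_neg h, if_neg, mul_zero]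
      intro h'
      exact h (mul_inv_eq_one.1 h').symm

theorem Psi_comul (b a : MonoidAlgebra F Γ) (n : Γ) :
    (Psi b (Coalgebra.comul (R := F) a)).coeff n = a.coeff n * b.coeff n := by
  classical
  induction a using MonoidAlgebra.induction_linear with
  | zero => simp
  | add a a' ha ha' => rw [map_add, map_add, MonoidAlgebra.coeff_add, Finsupp.add_apply, ha, ha',
      MonoidAlgebra.coeff_add, Finsupp.add_apply, add_mul]
  | single m c =>
    rw [comul_single]
    simp only [CommSemiring.comul_apply, TensorProduct.map_tmul]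
    simp only [MonoidAlgebra.lsingle_apply]
    rw [Psi_tmul, coeff_one_antipode]
    by_cases h : m = n
    · subst h; simp
    · simp [h]

/-- If `𝔄` is a Hopf order such that the coefficients at `1` of its elements lie in `A`, then all
coefficients of the elements of `𝔄` are integral over `A`. -/
theorem isIntegral_coeff {K : Type*} [Field K] [Algebra K F] {H : Subalgebra K (MonoidAlgebra F Γ)}
    {𝔄 : Subalgebra A (MonoidAlgebra F Γ)} (h𝔄 : IsHopfOrder A K F H 𝔄)
    (h1 : ∀ x ∈ 𝔄, x.coeff 1 ∈ (algebraMap A F).range) (a : MonoidAlgebra F Γ) (ha : a ∈ 𝔄)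
    (n : Γ) : IsIntegral A (a.coeff n) := by
  have key : ∀ b ∈ 𝔄, Psi b (Coalgebra.comul (R := F) a) ∈ 𝔄 := by
    intro b hb
    have h2 := h𝔄.comul a ha
    have h3 : ∀ t ∈ Submodule.span A {t : MonoidAlgebra F Γ ⊗[F] MonoidAlgebra F Γ |
        ∃ a ∈ 𝔄, ∃ b ∈ 𝔄, t = a ⊗ₜ[F] b}, Psi b t ∈ 𝔄 := by
      intro t ht
      induction ht using Submodule.span_induction with
      | mem t ht =>
        obtain ⟨x, hx, y, hy, rfl⟩ := ht
        rw [Psi_tmul]
        obtain ⟨r, hr⟩ := h1 _ (mul_mem hy (h𝔄.antipode b hb))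
        rw [← hr, algebraMap_smul]
        exact 𝔄.smul_mem hx r
      | zero => rw [map_zero]; exact 𝔄.zero_mem
      | add x y _ _ hx hy => rw [map_add]; exact 𝔄.add_mem hx hy
      | smul r x _ hx =>
        rw [← algebraMap_smul F r x, map_smul, algebraMap_smul]
        exact 𝔄.smul_mem hx r
    exact h3 _ h2
  let φ : MonoidAlgebra F Γ →ₗ[A] F :=
    { toFun := fun x => x.coeff n
      map_add' := fun x y => by simp
      map_smul' := fun r x => by simp }
  let M : Submodule A F := (Subalgebra.toSubmodule 𝔄).map φ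
  have hM : M.FG := h𝔄.order.fg.map φ
  by_cases h0 : M = ⊥
  · have : a.coeff n ∈ M := ⟨a, ha, rfl⟩
    rw [h0, Submodule.mem_bot] at this
    rw [this]
    exact isIntegral_zero
  · refine isIntegral_of_smul_mem_submodule M h0 hM _ ?_
    rintro _ ⟨b, hb, rfl⟩
    refine ⟨Psi b (Coalgebra.comul (R := F) a), key b hb, ?_⟩
    change (Psi b (Coalgebra.comul (R := F) a)).coeff n = a.coeff n • b.coeff n
    rw [Psi_comul, smul_eq_mul]

end general

end Pool.Agent.Q21.HG
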