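import Pool.Agent.Q21.HG.Order

set_option autoImplicit false

namespace Pool.Agent.Q21.HG

open MonoidAlgebra Polynomial

variable {K L : Type*} [Field K] [Field L] [Algebra K L] [FiniteDimensional K L] [IsGalois K L]
variable (A : Type*) [CommRing A] [IsDedekindDomain A] [Algebra A K] [IsFractionRing A K]
  [Algebra A L] [IsScalarTower A K L]

/-- double dual: if `Tr(w u) ∈ A` for all `u` in the dual lattice of `𝔒_L`, then `w ∈ 𝔒_L` -/
theorem mem_of_dual (w : L)
    (h : ∀ u : L, (∀ x ∈ integralClosure A L, Algebra.trace K L (x * u) ∈ (algebraMap A K).range) →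
      Algebra.trace K L (u * w) ∈ (algebraMap A K).range) : w ∈ integralClosure A L := by
  let B := integralClosure A L
  have : IsDedekindDomain B := integralClosure.isDedekindDomain A K L
  have : IsFractionRing B L := integralClosure.isFractionRing_of_finite_extension K L
  have : IsDomain A := inferInstance
  have h1 : (1 : FractionalIdeal (nonZeroDivisors B) L) ≠ 0 := one_ne_zero
  have hd : FractionalIdeal.dual A K (1 : FractionalIdeal (nonZeroDivisors B) L) ≠ 0 :=
    FractionalIdeal.dual_ne_zero A K h1
  have key : w ∈ FractionalIdeal.dual A K (FractionalIdeal.dual A K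
      (1 : FractionalIdeal (nonZeroDivisors B) L)) := by
    rw [FractionalIdeal.mem_dual hd]
    intro u hu
    rw [FractionalIdeal.mem_dual h1] at hu
    rw [Algebra.traceForm_apply, mul_comm]
    refine h u fun x hx => ?_
    have := hu x (FractionalIdeal.mem_one_iff _ |>.2 ⟨⟨x, hx⟩, rfl⟩)
    rwa [Algebra.traceForm_apply, mul_comm] at this
  rw [FractionalIdeal.dual_dual, FractionalIdeal.mem_one_iff] at key
  obtain ⟨y, rfl⟩ := key
  exact y.2

theorem map_mem_intCl (g : L ≃ₐ[K] L) {x : L} (hx : x ∈ integralClosure A L) :
    g x ∈ integralClosure A L := by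
  rw [mem_integralClosure_iff] at hx ⊢
  have : IsIntegral A ((g.toAlgHom.restrictScalars A) x) := hx.map _
  exact this

/-- `T_{u,v} ∈ 𝔄_λ` if `u` is in the dual lattice and `v` is integral -/
theorem T_mem_assoc {u v : L}
    (hu : ∀ x ∈ integralClosure A L, Algebra.trace K L (x * u) ∈ (algebraMap A K).range)
    (hv : v ∈ integralClosure A L) : T (K := K) u v ∈ assocOrder A (integralClosure A L) := by
  refine ⟨T_mem u v, fun x hx => ?_⟩
  rw [act_T]
  refine sum_mem fun h _ => ?_
  have h1 : Algebra.trace K L (h u * x) = Algebra.trace K L (h⁻¹ x * u) := by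
    rw [← Algebra.trace_eq_of_algEquiv h (h⁻¹ x * u)]
    congr 1
    rw [map_mul, mul_comm]
    congr 1
    exact (AlgEquiv.apply_symm_apply h x).symm
  obtain ⟨a, ha⟩ := hu (h⁻¹ x) (map_mem_intCl A h⁻¹ hx)
  rw [h1, ← ha, ← IsScalarTower.algebraMap_apply]
  exact mul_mem ((integralClosure A L).algebraMap_mem a) (map_mem_intCl A h hv)

/-- The associated order is an order. -/
theorem assocOrder_isOrder : IsOrder A K (Hlam K L) (assocOrder A (integralClosure A L)) := by
  let B := integralClosure A L
  have : IsNoetherian A B := IsIntegralClosure.isNoetherian A K L B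
  obtain ⟨s, hs⟩ : (Subalgebra.toSubmodule B).FG := by
    have : (⊤ : Submodule A B).FG := IsNoetherian.noetherian _
    have h2 := this.map (Subalgebra.toSubmodule B).subtype
    rwa [Submodule.map_subtype_top] at h2
  have hsB : ∀ x ∈ s, x ∈ B := fun x hx => by
    have : x ∈ Submodule.span A (s : Set L) := Submodule.subset_span hx
    rw [hs] at this
    exact this
  have hKs : Submodule.span K (s : Set L) = ⊤ := by
    rw [eq_top_iff]
    intro x _
    obtain ⟨y, hy0, hy⟩ := exists_integral_multiples A K ({x} : Finset L)
    have h1 : y • x ∈ Submodule.span A (s : Set L) := by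
      rw [hs]; exact hy x (Finset.mem_singleton_self x)
    have h2 : y • x ∈ Submodule.span K (s : Set L) := by
      have : Submodule.span A (s : Set L) ≤ (Submodule.span K (s : Set L)).restrictScalars A :=
        Submodule.span_le_restrictScalars A K _
      exact this h1
    have h3 : algebraMap A K y ≠ 0 := by
      rwa [Ne, IsFractionRing.to_map_eq_zero_iff]
    have h4 : x = (algebraMap A K y)⁻¹ • (y • x) := by
      rw [← algebraMap_smul K y x, smul_smul, inv_mul_cancel₀ h3, one_smul]
    rw [h4]
    exact Submodule.smul_mem _ _ h2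
  refine ⟨fun x hx => hx.1, ?_, ?_⟩
  · -- finitely generated
    let f : MonoidAlgebra L (N K L) →ₗ[A] (s → L) :=
      { toFun := fun z i => act z i
        map_add' := fun z w => funext fun i => act_add z w i
        map_smul' := fun r z => funext fun i => by
          rw [← algebraMap_smul K r z, act_smul, algebraMap_smul]
          rfl }
    have hf : Function.Injective f := by
      rw [← LinearMap.ker_eq_bot, LinearMap.ker_eq_bot']
      intro z hz
      apply act_injective
      intro x
      have hx : x ∈ Submodule.span K (s : Set L) := hKs ▸ Submodule.mem_top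
      induction hx using Submodule.span_induction with
      | mem y hy => exact congrFun hz ⟨y, hy⟩
      | zero => simpa using act_smul_right z 0 0
      | add a b _ _ ha hb => rw [act_add_right, ha, hb, add_zero]
      | smul r a _ ha => rw [act_smul_right, ha, smul_zero]
    refine Submodule.fg_of_fg_map_injective f hf ?_
    let g : (s → B) →ₗ[A] (s → L) := LinearMap.compLeft B.val.toLinearMap s
    have : IsNoetherian A (LinearMap.range g) := isNoetherian_of_surjective (M := (s → B))
      g.rangeRestrict (LinearMap.range_rangeRestrict g)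
    refine (isNoetherian_submodule.1 this) _ ?_
    rintro _ ⟨z, hz, rfl⟩
    exact ⟨fun i => ⟨act z i, hz.2 i (hsB i i.2)⟩, rfl⟩
  · apply le_antisymm
    · rw [Submodule.span_le]
      exact fun x hx => hx.1
    · intro z hz
      classical
      obtain ⟨y, hy0, hy⟩ := exists_integral_multiples A K (s.image (act z))
      have h3 : algebraMap A K y ≠ 0 := by
        rwa [Ne, IsFractionRing.to_map_eq_zero_iff]
      have h1 : y • z ∈ assocOrder A B := by
        refine ⟨?_, fun x hx => ?_⟩
        · rw [← algebraMap_smul K y z]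
          exact (Hlam K L).smul_mem hz _
        · have hx' : x ∈ Submodule.span A (s : Set L) := by rw [hs]; exact hx
          rw [← algebraMap_smul K y z, act_smul, algebraMap_smul]
          clear hx
          induction hx' using Submodule.span_induction with
          | mem a ha => exact hy _ (Finset.mem_image_of_mem _ ha)
          | zero =>
            have h0 : act z (0 : L) = 0 := by simpa using act_smul_right z 0 0
            rw [h0, smul_zero]; exact B.zero_mem
          | add a b _ _ ha hb => rw [act_add_right, smul_add]; exact B.add_mem ha hb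
          | smul r a _ ha =>
            rw [← algebraMap_smul K r a, act_smul_right, algebraMap_smul, smul_comm]
            exact B.smul_mem ha r
      have h4 : z = (algebraMap A K y)⁻¹ • (y • z) := by
        rw [← algebraMap_smul K y z, smul_smul, inv_mul_cancel₀ h3, one_smul]
      rw [h4]
      exact Submodule.smul_mem _ _ (Submodule.subset_span h1)

/-- **Maximality.** If `|G|` is a unit of `A`, then `𝔄_λ` is a maximal order of `H_λ`. -/
theorem assocOrder_maximal (hn : IsUnit ((Nat.card (L ≃ₐ[K] L) : ℕ) : A))
    (𝔅 : Subalgebra A (MonoidAlgebra L (N K L))) (h𝔅 : IsOrder A K (Hlam K L) 𝔅)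
    (hle : assocOrder (K := K) A (integralClosure A L) ≤ 𝔅) :
    𝔅 = assocOrder (K := K) A (integralClosure A L) := by
  refine le_antisymm (fun z hz => ⟨h𝔅.le z hz, fun v hv => ?_⟩) hle
  refine mem_of_dual (K := K) A _ fun u hu => ?_
  have h1 : T (K := K) u v ∈ 𝔅 := hle (T_mem_assoc A hu hv)
  have h2 : z * T (K := K) u v ∈ 𝔅 := mul_mem hz h1
  have h3 : IsIntegral A (z * T (K := K) u v) := IsIntegral.of_mem_of_fg 𝔅 h𝔅.fg _ h2
  obtain ⟨P, hP, hP0⟩ := h3
  have hst : IsScalarTower A K (Hlam K L) := inferInstance
  let b : Hlam K L := ⟨z, h𝔅.le z hz⟩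
  let t : Hlam K L := ⟨T u v, T_mem u v⟩
  have h4 : aeval (b * t) (P.map (algebraMap A K)) = 0 := by
    apply Subtype.ext
    have h5 : ((aeval (b * t) (P.map (algebraMap A K)) : Hlam K L) : MonoidAlgebra L (N K L)) =
        aeval ((b * t : Hlam K L) : MonoidAlgebra L (N K L)) (P.map (algebraMap A K)) :=
      (Polynomial.aeval_algHom_apply (Hlam K L).val (b * t) _).symm
    rw [h5, Polynomial.aeval_map_algebraMap K ((b * t : Hlam K L) : MonoidAlgebra L (N K L)) P]
    exact hP0
  have h6 : aeval (actHom K L (b * t)) (P.map (algebraMap A K)) = 0 := by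
    rw [Polynomial.aeval_algHom_apply, h4, map_zero]
  have h7 := isIntegral_trace_end (actHom K L (b * t)) P hP h6
  rw [trace_T] at h7
  obtain ⟨c, hc⟩ := IsIntegrallyClosed.isIntegral_iff.1 h7
  obtain ⟨d, hd⟩ := hn
  refine ⟨(d⁻¹ : Aˣ) * c, ?_⟩
  rw [map_mul, hc]
  have h8 : ((Nat.card (L ≃ₐ[K] L) : ℕ) : K) = algebraMap A K d := by rw [hd]; simp
  rw [h8, ← mul_assoc, ← map_mul, Units.inv_mul, map_one, one_mul]

end Pool.Agent.Q21.HG
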