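import Pool.Agent.Q21.HG.Defs

set_option autoImplicit false

namespace Pool.Agent.Q21.HG

open MonoidAlgebra Polynomial

/-- The trace of an endomorphism which is integral over `A` is integral over `A`. -/
theorem isIntegral_trace_end {A K V : Type*} [CommRing A] [Field K] [Algebra A K]
    [AddCommGroup V] [Module K V] [FiniteDimensional K V] (f : Module.End K V) (P : A[X])
    (hP : P.Monic) (hf : aeval f (P.map (algebraMap A K)) = 0) :
    IsIntegral A (LinearMap.trace K V f) := by
  let Ω := AlgebraicClosure K
  let g : Module.End Ω (TensorProduct K Ω V) := LinearMap.baseChange Ω f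
  have h1 : IsIntegral A (LinearMap.trace Ω _ g) := by
    rw [Module.End.trace_eq_sum_roots_charpoly_of_splits (IsAlgClosed.splits _)]
    refine IsIntegral.multiset_sum ?_
    intro r hr
    have hr' : g.HasEigenvalue r := by
      rw [Module.End.hasEigenvalue_iff_isRoot_charpoly]
      exact (Polynomial.mem_roots'.1 hr).2
    obtain ⟨v, hv⟩ := hr'.exists_hasEigenvector
    refine ⟨P, hP, ?_⟩
    have h2 : aeval g (P.map (algebraMap A Ω)) = 0 := by
      have h3 : aeval g (P.map (algebraMap A Ω)) =
          LinearMap.baseChange Ω (aeval f (P.map (algebraMap A K))) := by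
        have h4 : P.map (algebraMap A Ω) = (P.map (algebraMap A K)).map (algebraMap K Ω) := by
          rw [Polynomial.map_map, ← IsScalarTower.algebraMap_eq]
        rw [h4]
        generalize P.map (algebraMap A K) = Q
        have := (Polynomial.aeval_algHom_apply (Module.End.baseChangeHom K Ω V) f Q)
        rw [Polynomial.aeval_map_algebraMap]
        exact this
      rw [h3, hf, LinearMap.baseChange_zero]
    have h5 := Module.End.aeval_apply_of_hasEigenvector hv (p := P.map (algebraMap A Ω))
    rw [h2] at h5
    have h6 : eval r (P.map (algebraMap A Ω)) = 0 := by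
      have h7 : eval r (P.map (algebraMap A Ω)) • v = 0 := by rw [← h5]; simp
      exact (smul_eq_zero.1 h7).resolve_right hv.2
    rwa [Polynomial.eval_map] at h6
  rw [LinearMap.trace_baseChange] at h1
  exact (isIntegral_algebraMap_iff (algebraMap K Ω).injective).1 h1

end Pool.Agent.Q21.HG
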