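import Pool.Agent.Q21.HG.Defs
import Pool.Agent.Q21.HG.Trace

set_option autoImplicit false

namespace Pool.Agent.Q21.HG

open MonoidAlgebra Polynomial

/-- `𝔅` is an `A`-order of the `K`-algebra `H` (both are given inside a ring `R`): a subring of `H`
which is a finitely generated `A`-module and spans `H` over `K`. -/
structure IsOrder (A K : Type*) {R : Type*} [CommRing A] [Field K] [Ring R] [Algebra A R]
    [Algebra K R] (H : Subalgebra K R) (𝔅 : Subalgebra A R) : Prop where
  le : ∀ x ∈ 𝔅, x ∈ H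
  fg : (Subalgebra.toSubmodule 𝔅).FG
  span : Submodule.span K (𝔅 : Set R) = Subalgebra.toSubmodule H

variable {K L : Type*} [Field K] [Field L] [Algebra K L]

/-- The associated order `𝔄_λ = {h ∈ H_λ : h · 𝔒 ⊆ 𝔒}`, `𝔒` a subring of `L` (the ring of
integers). -/
noncomputable def assocOrder (A : Type*) [CommRing A] [Algebra A K] [Algebra A L]
    [IsScalarTower A K L] (B : Subalgebra A L) : Subalgebra A (MonoidAlgebra L (N K L)) where
  carrier := {z | z ∈ Hlam K L ∧ ∀ x ∈ B, act z x ∈ B}
  mul_mem' {a b} ha hb := ⟨mul_mem ha.1 hb.1, fun x hx => by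
    rw [act_mul _ hb.1]; exact ha.2 _ (hb.2 _ hx)⟩
  add_mem' {a b} ha hb := ⟨add_mem ha.1 hb.1, fun x hx => by
    rw [act_add]; exact add_mem (ha.2 _ hx) (hb.2 _ hx)⟩
  algebraMap_mem' r := by
    have h1 : algebraMap A (MonoidAlgebra L (N K L)) r =
        (algebraMap K (MonoidAlgebra L (N K L))) (algebraMap A K r) := by
      rw [coe_algebraMap, coe_algebraMap]
      simp [← IsScalarTower.algebraMap_apply]
    refine ⟨?_, fun x hx => ?_⟩
    · rw [h1]; exact (Hlam K L).algebraMap_mem _
    · rw [h1, Algebra.algebraMap_eq_smul_one, act_smul, act_one, algebraMap_smul]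
      exact B.smul_mem hx r

section T

variable [FiniteDimensional K L] [IsGalois K L]

/-- the element `T_{u,v}` of `H_λ` which acts as `x ↦ ∑_h h(v) Tr(h(u) x)` -/
noncomputable def T (u v : L) : MonoidAlgebra L (N K L) :=
  ∑ t : L ≃ₐ[K] L, single (lamN t) (∑ h : L ≃ₐ[K] L, h v * t⁻¹ (h u))

theorem T_mem (u v : L) : T u v ∈ Hlam K L := by
  intro g
  rw [← galHom_apply, T, map_sum]
  simp only [galHom_single, ← lamN_mul, ← lamN_inv]
  refine Fintype.sum_equiv (MulAut.conj g).toEquiv _ _ fun t => ?_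
  simp only [MulEquiv.toEquiv_eq_coe, EquivLike.coe_coe, MulAut.conj_apply]
  congr 1
  rw [map_sum]
  refine Fintype.sum_equiv (Equiv.mulLeft g) _ _ fun h => ?_
  simp [map_mul, AlgEquiv.mul_apply]

theorem act_T (u v x : L) :
    act (T (K := K) u v) x = ∑ h : L ≃ₐ[K] L, algebraMap K L (Algebra.trace K L (h u * x)) * h v := by
  have h1 : act (T (K := K) u v) x =
      ∑ t : L ≃ₐ[K] L, (∑ h : L ≃ₐ[K] L, h v * t⁻¹ (h u)) * t⁻¹ x := by
    unfold T
    have h2 : ∀ s : Finset (L ≃ₐ[K] L), act (∑ t ∈ s, single (lamN t)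
        (∑ h : L ≃ₐ[K] L, h v * t⁻¹ (h u))) x =
        ∑ t ∈ s, (∑ h : L ≃ₐ[K] L, h v * t⁻¹ (h u)) * t⁻¹ x := by
      classical
      intro s
      induction s using Finset.induction_on with
      | empty => simp [act_zero]
      | insert a s ha ih => rw [Finset.sum_insert ha, Finset.sum_insert ha, act_add, ih,
          act_single_lamN]
    exact h2 _
  rw [h1]
  simp only [trace_eq_sum_automorphisms, Finset.sum_mul]
  rw [Finset.sum_comm]
  refine Finset.sum_congr rfl fun h _ => ?_
  refine Fintype.sum_equiv (Equiv.inv _) _ _ fun t => ?_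
  simp only [Equiv.inv_apply, map_mul]
  ring

/-- `trace (b ∘ T_{u,v}) = |G| Tr(u b(v))` -/
theorem trace_T (b : Hlam K L) (u v : L) :
    LinearMap.trace K L (actHom K L (b * ⟨T u v, T_mem u v⟩)) =
      (Nat.card (L ≃ₐ[K] L) : K) * Algebra.trace K L (u * act (b : MonoidAlgebra L (N K L)) v) := by
  have h1 : actHom K L (b * ⟨T u v, T_mem u v⟩) =
      ∑ h : L ≃ₐ[K] L, (((Algebra.trace K L) ∘ₗ (LinearMap.mul K L (h u))).smulRight
        (h (act (b : MonoidAlgebra L (N K L)) v))) := by
    ext x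
    rw [map_mul, Module.End.mul_apply, actHom_apply, actHom_apply]
    simp only [LinearMap.sum_apply, LinearMap.smulRight_apply, LinearMap.comp_apply,
      LinearMap.mul_apply']
    have h2 : act (T (K := K) u v) x =
        ∑ h : L ≃ₐ[K] L, (Algebra.trace K L (h u * x)) • h v := by
      rw [act_T]
      simp [Algebra.smul_def]
    rw [h2]
    have h3 : ∀ s : Finset (L ≃ₐ[K] L), act (b : MonoidAlgebra L (N K L))
        (∑ h ∈ s, (Algebra.trace K L (h u * x)) • h v) =
        ∑ h ∈ s, (Algebra.trace K L (h u * x)) • h (act (b : MonoidAlgebra L (N K L)) v) := by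
      intro s
      rw [← actHom_apply, map_sum]
      refine Finset.sum_congr rfl fun h _ => ?_
      rw [map_smul, actHom_apply, act_comm b.2]
    exact h3 _
  rw [h1, map_sum]
  simp only [LinearMap.trace_smulRight, LinearMap.comp_apply, LinearMap.mul_apply', ← map_mul]
  have h4 : ∀ h : L ≃ₐ[K] L, Algebra.trace K L (h (u * act (b : MonoidAlgebra L (N K L)) v)) =
      Algebra.trace K L (u * act (b : MonoidAlgebra L (N K L)) v) := by
    intro h
    exact Algebra.trace_eq_of_algEquiv h _
  simp only [h4, Finset.sum_const, Finset.card_univ, nsmul_eq_mul, Nat.card_eq_fintype_card]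

end T

end Pool.Agent.Q21.HG
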